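import Pool.Agent.Helper79.KN.Defs
import Pool.Agent.Helper98.KM.A3

/-!
A Lie algebra of matrices which is stable under conjugation by integral matrices that reduce to unipotent isometries:
it contains all matrices of trace zero, or its reduction consists of similitudes and contains the Lie algebra of the form.
-/

set_option autoImplicit false

open Matrix H77MT

namespace Pool.Agent.Helper79.KN

open Pool.Agent.Helper79.KM (redL span_of_red98)
open Pool.Agent.Helper98.CK (exists_max98)

section scalar
variable {F : Type*} [Field F] {m : Type*} [Fintype m] [DecidableEq m]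

/-- a matrix which commutes with the Lie algebra of a nondegenerate symmetric or alternating form is a scalar -/
theorem scalar_of_so98 (hm : 2 < Fintype.card m) {J : Matrix m m F} (hJ : IsUnit J.det) {ε : F} (hε : ε * ε = 1)
    (hs : Jᵀ = ε • J) (z : Matrix m m F) (hz : ∀ s : Matrix m m F, sᵀ * J + J * s = 0 → s * z = z * s) :
    ∃ c : F, z = c • 1 := by
  -- three different indices
  have h3 : ∀ i j : m, ∃ k : m, k ≠ i ∧ k ≠ j := by
    intro i j
    by_contra hcon
    push Not at hcon
    have h4 : (Finset.univ : Finset m) ⊆ {i, j} := by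
      intro k _
      by_cases hk : k = i
      · simp [hk]
      · simp [hcon k hk]
    have h5 := Finset.card_le_card h4
    rw [Finset.card_univ] at h5
    have h6 := Finset.card_le_two (a := i) (b := j)
    omega
  obtain ⟨Y, hYJ⟩ : ∃ Y : Matrix m m F, J * z = Y * J :=
    ⟨J * z * J⁻¹, by rw [Matrix.mul_assoc (J * z), Matrix.nonsing_inv_mul _ hJ, Matrix.mul_one]⟩
  have key : ∀ i j : m, z * (Matrix.single i j 1 - ε • Matrix.single j i 1) =
      (Matrix.single i j 1 - ε • Matrix.single j i 1) * Y := by
    intro i j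
    set W : Matrix m m F := Matrix.single i j 1 - ε • Matrix.single j i 1 with hW
    have hWt : Wᵀ = -(ε • W) := by
      rw [hW, Matrix.transpose_sub, Matrix.transpose_smul, Matrix.transpose_single, Matrix.transpose_single, smul_sub,
        smul_smul, hε, one_smul]
      abel
    have h1 : (W * J)ᵀ * J + J * (W * J) = 0 := by
      rw [Matrix.transpose_mul, hWt, hs]
      simp only [Matrix.mul_neg, Matrix.neg_mul, Matrix.smul_mul, Matrix.mul_smul, smul_smul, hε, one_smul, Matrix.mul_assoc]
      abel
    have h2 := hz _ h1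
    rw [Matrix.mul_assoc, hYJ, ← Matrix.mul_assoc, ← Matrix.mul_assoc] at h2
    have h4 := congrArg (fun M => M * J⁻¹) h2
    simp only [Matrix.mul_assoc, Matrix.mul_nonsing_inv _ hJ, Matrix.mul_one] at h4
    exact h4.symm
  have hent : ∀ i j k l : m, (z * (Matrix.single i j 1 - ε • Matrix.single j i 1) : Matrix m m F) k l =
      (if l = j then z k i else 0) - ε * (if l = i then z k j else 0) := by
    intro i j k l
    rw [Matrix.mul_sub, Matrix.mul_smul, Matrix.sub_apply, Matrix.smul_apply, smul_eq_mul]
    congr 1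
    · by_cases hl : l = j
      · subst hl
        rw [Matrix.mul_single_apply_same]
        simp
      · rw [Matrix.mul_single_apply_of_ne _ _ _ _ _ hl]
        simp [hl]
    · congr 1
      by_cases hl : l = i
      · subst hl
        rw [Matrix.mul_single_apply_same]
        simp
      · rw [Matrix.mul_single_apply_of_ne _ _ _ _ _ hl]
        simp [hl]
  have hent' : ∀ i j k l : m, ((Matrix.single i j 1 - ε • Matrix.single j i 1) * Y : Matrix m m F) k l =
      (if k = i then Y j l else 0) - ε * (if k = j then Y i l else 0) := by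
    intro i j k l
    rw [Matrix.sub_mul, Matrix.smul_mul, Matrix.sub_apply, Matrix.smul_apply, smul_eq_mul]
    congr 1
    · by_cases hk : k = i
      · subst hk
        rw [Matrix.single_mul_apply_same]
        simp
      · rw [Matrix.single_mul_apply_of_ne _ _ _ _ _ hk]
        simp [hk]
    · congr 1
      by_cases hk : k = j
      · subst hk
        rw [Matrix.single_mul_apply_same]
        simp
      · rw [Matrix.single_mul_apply_of_ne _ _ _ _ _ hk]
        simp [hk]
  have hoff : ∀ k i : m, k ≠ i → z k i = 0 := by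
    intro k i hki
    obtain ⟨j, hjk, hji⟩ := h3 k i
    have h1 := congrFun (congrFun (key i j) k) j
    rw [hent, hent'] at h1
    simpa [hki, hji, Ne.symm hjk] using h1
  have hdiag : ∀ i j : m, i ≠ j → z i i = Y j j := by
    intro i j hij
    have h1 := congrFun (congrFun (key i j) i) j
    rw [hent, hent'] at h1
    simpa [hij, Ne.symm hij] using h1
  have hm0 : Nonempty m := by
    rw [← Fintype.card_pos_iff]
    omega
  obtain ⟨i0⟩ := hm0
  refine ⟨z i0 i0, ?_⟩
  ext k l
  rw [Matrix.smul_apply, Matrix.one_apply, smul_eq_mul]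
  by_cases hkl : k = l
  · subst hkl
    obtain ⟨j, hj1, hj2⟩ := h3 k i0
    rw [if_pos rfl, mul_one, hdiag k j (Ne.symm hj1), hdiag i0 j (Ne.symm hj2)]
  · rw [if_neg hkl, mul_zero, hoff k l hkl]

end scalar

section lift
variable {K : Type*} [Field K] {m : Type*} [Fintype m] [DecidableEq m]

/-- a Lie algebra whose reduction contains all matrices of trace zero contains all matrices of trace zero -/
theorem full_of_red98 (O : ValuationSubring K) (h2 : (2 : IsLocalRing.ResidueField O) ≠ 0)
    (L : Submodule K (Matrix m m K)) (hbr : ∀ x ∈ L, ∀ y ∈ L, x * y - y * x ∈ L)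
    (hfull : ∀ x : Matrix m m (IsLocalRing.ResidueField O), x.trace = 0 → x ∈ redL O L) :
    ∀ x : Matrix m m K, x.trace = 0 → x ∈ L := by
  classical
  intro x hx
  by_cases hm : Nonempty m
  swap
  · have : IsEmpty m := not_nonempty_iff.1 hm
    rw [Subsingleton.elim x 0]
    exact L.zero_mem
  obtain ⟨i0⟩ := hm
  -- lifts of the matrix units
  have hX : ∀ p : m × m, p.1 ≠ p.2 → ∃ a : Matrix m m O, a.map (algebraMap O K) ∈ L ∧
      a.map (IsLocalRing.residue O) = Matrix.single p.1 p.2 1 := by
    intro p hp
    have : Matrix.single p.1 p.2 (1 : IsLocalRing.ResidueField O) ∈ redL O L := by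
      apply hfull
      rw [Matrix.trace_single_eq_of_ne _ _ _ hp]
    exact this
  choose! X hXL hXr using hX
  -- trace zero lifts in `L`
  have hY : ∀ p : m × m, ∃ a : Matrix m m O, a.map (algebraMap O K) ∈ L ∧ (a.map (algebraMap O K)).trace = 0 ∧
      a.map (IsLocalRing.residue O) = Matrix.single p.1 p.2 1 - (if p.1 = p.2 then Matrix.single i0 i0 1 else 0) := by
    rintro ⟨i, j⟩
    by_cases hij : i = j
    · subst hij
      by_cases hi : i = i0
      · subst hi
        refine ⟨0, ?_, ?_, ?_⟩
        · rw [Matrix.map_zero _ (map_zero _)]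
          exact L.zero_mem
        · rw [Matrix.map_zero _ (map_zero _), Matrix.trace_zero]
        · rw [Matrix.map_zero _ (map_zero _)]
          simp
      · refine ⟨X (i, i0) * X (i0, i) - X (i0, i) * X (i, i0), ?_, ?_, ?_⟩
        · rw [Matrix.map_sub _ (fun _ _ => map_sub _ _ _), Matrix.map_mul, Matrix.map_mul]
          exact hbr _ (hXL (i, i0) hi) _ (hXL (i0, i) (Ne.symm hi))
        · rw [Matrix.map_sub _ (fun _ _ => map_sub _ _ _), Matrix.map_mul, Matrix.map_mul, Matrix.trace_sub,
            Matrix.trace_mul_comm, sub_self]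
        · rw [Matrix.map_sub _ (fun _ _ => map_sub _ _ _), Matrix.map_mul, Matrix.map_mul, hXr (i, i0) hi,
            hXr (i0, i) (Ne.symm hi)]
          simp
    · -- `[[X_ij, X_ji], X_ij] / 2`
      have h2u : IsUnit (2 : O) := by
        by_contra hcon
        apply h2
        have h3 : IsLocalRing.residue O (2 : O) = 0 := by
          rw [IsLocalRing.residue_eq_zero_iff]
          exact (IsLocalRing.mem_maximalIdeal _).2 hcon
        rw [map_ofNat] at h3
        exact h3
      obtain ⟨u, hu⟩ := h2u
      let H : Matrix m m O := X (i, j) * X (j, i) - X (j, i) * X (i, j)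
      have hHL : H.map (algebraMap O K) ∈ L := by
        rw [Matrix.map_sub _ (fun _ _ => map_sub _ _ _), Matrix.map_mul, Matrix.map_mul]
        exact hbr _ (hXL (i, j) hij) _ (hXL (j, i) (Ne.symm hij))
      have hHr : H.map (IsLocalRing.residue O) = Matrix.single i i 1 - Matrix.single j j 1 := by
        rw [Matrix.map_sub _ (fun _ _ => map_sub _ _ _), Matrix.map_mul, Matrix.map_mul, hXr (i, j) hij,
            hXr (j, i) (Ne.symm hij)]
        simp
      refine ⟨(↑u⁻¹ : O) • (H * X (i, j) - X (i, j) * H), ?_, ?_, ?_⟩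
      · have h4 : ((↑u⁻¹ : O) • (H * X (i, j) - X (i, j) * H)).map (algebraMap O K)
            = ((↑u⁻¹ : O) : K) • (H.map (algebraMap O K) * (X (i, j)).map (algebraMap O K) -
              (X (i, j)).map (algebraMap O K) * H.map (algebraMap O K)) := by
          rw [← Matrix.map_mul, ← Matrix.map_mul, ← Matrix.map_sub _ (fun _ _ => map_sub _ _ _)]
          ext k l
          rw [Matrix.map_apply, Matrix.smul_apply, Matrix.smul_apply, Matrix.map_apply, smul_eq_mul, smul_eq_mul, map_mul]
          rfl
        rw [h4]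
        exact L.smul_mem _ (hbr _ hHL _ (hXL (i, j) hij))
      · have h4 : ((↑u⁻¹ : O) • (H * X (i, j) - X (i, j) * H)).map (algebraMap O K)
            = ((↑u⁻¹ : O) : K) • (H.map (algebraMap O K) * (X (i, j)).map (algebraMap O K) -
              (X (i, j)).map (algebraMap O K) * H.map (algebraMap O K)) := by
          rw [← Matrix.map_mul, ← Matrix.map_mul, ← Matrix.map_sub _ (fun _ _ => map_sub _ _ _)]
          ext k l
          rw [Matrix.map_apply, Matrix.smul_apply, Matrix.smul_apply, Matrix.map_apply, smul_eq_mul, smul_eq_mul, map_mul]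
          rfl
        rw [h4, Matrix.trace_smul, Matrix.trace_sub, Matrix.trace_mul_comm, sub_self, smul_zero]
      · have h4 : ((↑u⁻¹ : O) • (H * X (i, j) - X (i, j) * H)).map (IsLocalRing.residue O)
            = (IsLocalRing.residue O (↑u⁻¹ : O)) • (H.map (IsLocalRing.residue O) * (X (i, j)).map (IsLocalRing.residue O) -
              (X (i, j)).map (IsLocalRing.residue O) * H.map (IsLocalRing.residue O)) := by
          rw [← Matrix.map_mul, ← Matrix.map_mul, ← Matrix.map_sub _ (fun _ _ => map_sub _ _ _)]
          ext k l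
          rw [Matrix.map_apply, Matrix.smul_apply, Matrix.smul_apply, Matrix.map_apply, smul_eq_mul, smul_eq_mul, map_mul]
        rw [h4, hHr, hXr (i, j) hij]
        have h5 : (Matrix.single i i (1 : IsLocalRing.ResidueField O) - Matrix.single j j 1) * Matrix.single i j 1 -
            Matrix.single i j 1 * (Matrix.single i i 1 - Matrix.single j j 1) = (2 : IsLocalRing.ResidueField O) • Matrix.single i j 1 := by
          rw [Matrix.sub_mul, Matrix.mul_sub, Matrix.single_mul_single_same, Matrix.single_mul_single_of_ne _ _ _ _ (Ne.symm hij),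
            Matrix.single_mul_single_of_ne _ _ _ _ (Ne.symm hij), Matrix.single_mul_single_same, two_smul]
          simp
        rw [h5, smul_smul, if_neg hij, sub_zero]
        have h6 : (IsLocalRing.residue O (↑u⁻¹ : O)) * 2 = 1 := by
          have h7 : (↑u⁻¹ : O) * 2 = 1 := by rw [← hu]; exact u.inv_mul
          have h8 := congrArg (IsLocalRing.residue O) h7
          rwa [map_mul, map_one, map_ofNat] at h8
        rw [h6, one_smul]
  choose Y hYL hYt hYr using hY
  let t : m × m → Matrix m m O := fun p => Y p + (if p.1 = p.2 then Matrix.single i0 i0 1 else 0)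
  have ht : ∀ p, (t p).map (IsLocalRing.residue O) = Matrix.single p.1 p.2 1 := by
    intro p
    show (Y p + (if p.1 = p.2 then Matrix.single i0 i0 1 else 0)).map (IsLocalRing.residue O) = _
    rw [Matrix.map_add _ (fun _ _ => map_add _ _ _), hYr p]
    split_ifs
    · rw [Matrix.map_single, map_one]
      abel
    · rw [Matrix.map_zero _ (map_zero _)]
      abel
  obtain ⟨c, hc⟩ := span_of_red98 O t ht x
  have ht' : ∀ p, (t p).map (algebraMap O K) = (Y p).map (algebraMap O K) +
      (if p.1 = p.2 then Matrix.single i0 i0 1 else 0) := by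
    intro p
    show (Y p + (if p.1 = p.2 then Matrix.single i0 i0 1 else 0)).map (algebraMap O K) = _
    rw [Matrix.map_add _ (fun _ _ => map_add _ _ _)]
    split_ifs
    · rw [Matrix.map_single, map_one]
    · rw [Matrix.map_zero _ (map_zero _)]
  have hx1 : x = ∑ p, c p • (Y p).map (algebraMap O K) +
      (∑ p : m × m, if p.1 = p.2 then c p else 0) • Matrix.single i0 i0 (1 : K) := by
    rw [hc, Finset.sum_smul, ← Finset.sum_add_distrib]
    refine Finset.sum_congr rfl fun p _ => ?_
    rw [ht' p, smul_add]
    split_ifs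
    · rfl
    · rw [zero_smul, smul_zero]
  have hc0 : (∑ p : m × m, if p.1 = p.2 then c p else 0) = 0 := by
    have h5 := congrArg Matrix.trace hx1
    rw [hx, Matrix.trace_add, Matrix.trace_sum, Matrix.trace_smul, Matrix.trace_single_eq_same, smul_eq_mul, mul_one] at h5
    rw [Finset.sum_eq_zero (fun p _ => by rw [Matrix.trace_smul, hYt p, smul_zero]), zero_add] at h5
    exact h5.symm
  rw [hx1, hc0, zero_smul, add_zero]
  exact L.sum_mem fun p _ => L.smul_mem _ (hYL p)

theorem lift_gen98 (O : ValuationSubring K) (h2 : (2 : IsLocalRing.ResidueField O) ≠ 0) (hm : 4 < Fintype.card m)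
    {J : Matrix m m (IsLocalRing.ResidueField O)} (hJ : IsUnit J.det) (hs : Jᵀ = J ∨ Jᵀ = -J)
    (P : Set (Matrix m m (IsLocalRing.ResidueField O))) (hP : ∀ y ∈ P, yᵀ * J + J * y = 0 ∧ y * y = 0)
    (hspan : ∀ s : Matrix m m (IsLocalRing.ResidueField O), sᵀ * J + J * s = 0 →
      s ∈ Submodule.span (IsLocalRing.ResidueField O) P)
    (L : Submodule K (Matrix m m K)) (hbr : ∀ x ∈ L, ∀ y ∈ L, x * y - y * x ∈ L)
    (hL : ∀ y ∈ P, ∃ g h : Matrix m m O, g * h = 1 ∧ g.map (IsLocalRing.residue O) = 1 + y ∧
      ∀ a ∈ L, g.map (algebraMap O K) * a * h.map (algebraMap O K) ∈ L ∧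
        h.map (algebraMap O K) * a * g.map (algebraMap O K) ∈ L)
    (hns : ∃ c ∈ L, ∀ l : K, c ≠ l • (1 : Matrix m m K)) :
    (∀ x ∈ redL O L, ∀ y ∈ redL O L, x * y - y * x ∈ redL O L) ∧
    (∀ s : Matrix m m (IsLocalRing.ResidueField O), sᵀ * J + J * s = 0 → ∀ a ∈ redL O L, s * a - a * s ∈ redL O L) ∧
    ∃ c ∈ redL O L, ∀ l : IsLocalRing.ResidueField O, c ≠ l • (1 : Matrix m m (IsLocalRing.ResidueField O)) := by
  classical
  have hbr' : ∀ x ∈ redL O L, ∀ y ∈ redL O L, x * y - y * x ∈ redL O L := by
    rintro _ ⟨a, ha, rfl⟩ _ ⟨b, hb, rfl⟩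
    refine ⟨a * b - b * a, ?_, ?_⟩
    · rw [Matrix.map_sub _ (fun _ _ => map_sub _ _ _), Matrix.map_mul, Matrix.map_mul]
      exact hbr _ ha _ hb
    · rw [Matrix.map_sub _ (fun _ _ => map_sub _ _ _), Matrix.map_mul, Matrix.map_mul]
  have hinv : ∀ y ∈ P, ∀ g h : Matrix m m O, g * h = 1 → g.map (IsLocalRing.residue O) = 1 + y →
      h.map (IsLocalRing.residue O) = 1 - y := by
    intro y hy g h hgh hg
    have e1 : (1 - y) * (1 + y) = 1 := by
      calc (1 - y) * (1 + y) = 1 - y * y := by noncomm_ring
        _ = 1 := by rw [(hP y hy).2, sub_zero]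
    have h3 : g.map (IsLocalRing.residue O) * h.map (IsLocalRing.residue O) = 1 := by
      rw [← Matrix.map_mul, hgh]
      simp
    rw [hg] at h3
    calc h.map (IsLocalRing.residue O) = ((1 - y) * (1 + y)) * h.map (IsLocalRing.residue O) := by
          rw [e1, one_mul]
      _ = 1 - y := by rw [mul_assoc, h3, mul_one]
  have hadP : ∀ y ∈ P, ∀ a ∈ redL O L, y * a - a * y ∈ redL O L := by
    rintro y hy _ ⟨a, ha, rfl⟩
    obtain ⟨g, h, hgh, hg, hst⟩ := hL y hy
    have hh := hinv y hy g h hgh hg
    have k1 : (1 + y) * a.map (IsLocalRing.residue O) * (1 - y) ∈ redL O L := by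
      refine ⟨g * a * h, ?_, ?_⟩
      · rw [Matrix.map_mul, Matrix.map_mul]
        exact (hst _ ha).1
      · rw [Matrix.map_mul, Matrix.map_mul, hg, hh]
    have k2 : (1 - y) * a.map (IsLocalRing.residue O) * (1 + y) ∈ redL O L := by
      refine ⟨h * a * g, ?_, ?_⟩
      · rw [Matrix.map_mul, Matrix.map_mul]
        exact (hst _ ha).2
      · rw [Matrix.map_mul, Matrix.map_mul, hg, hh]
    have k3 := (redL O L).sub_mem k1 k2
    have e : (1 + y) * a.map (IsLocalRing.residue O) * (1 - y) - (1 - y) * a.map (IsLocalRing.residue O) * (1 + y)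
        = (2 : IsLocalRing.ResidueField O) • (y * a.map (IsLocalRing.residue O) - a.map (IsLocalRing.residue O) * y) := by
      rw [two_smul]
      noncomm_ring
    rw [e] at k3
    have k4 := (redL O L).smul_mem ((2 : IsLocalRing.ResidueField O)⁻¹) k3
    rwa [smul_smul, inv_mul_cancel₀ h2, one_smul] at k4
  have had : ∀ s : Matrix m m (IsLocalRing.ResidueField O), sᵀ * J + J * s = 0 → ∀ a ∈ redL O L,
      s * a - a * s ∈ redL O L := by
    intro s hsJ a ha
    have hsp := hspan s hsJ
    clear hsJ
    induction hsp using Submodule.span_induction with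
    | mem y hy => exact hadP y hy a ha
    | zero => rw [Matrix.zero_mul, Matrix.mul_zero, sub_zero]; exact (redL O L).zero_mem
    | add x y _ _ h3 h4 =>
      have : (x + y) * a - a * (x + y) = (x * a - a * x) + (y * a - a * y) := by noncomm_ring
      rw [this]
      exact (redL O L).add_mem h3 h4
    | smul c x _ h3 =>
      have : (c • x) * a - a * (c • x) = c • (x * a - a * x) := by
        rw [Matrix.smul_mul, Matrix.mul_smul, smul_sub]
      rw [this]
      exact (redL O L).smul_mem c h3
  refine ⟨hbr', had, ?_⟩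
  obtain ⟨c, hc, hcs⟩ := hns
  have hm0 : Nonempty m := by
    rw [← Fintype.card_pos_iff]
    omega
  obtain ⟨i0⟩ := hm0
  set b : Matrix m m K := c - (c i0 i0) • 1 with hb
  have hb0 : b ≠ 0 := fun h0 => hcs (c i0 i0) (sub_eq_zero.1 h0)
  have hbi : b i0 i0 = 0 := by
    rw [hb, Matrix.sub_apply, Matrix.smul_apply, Matrix.one_apply_eq, smul_eq_mul, mul_one, sub_self]
  obtain ⟨d, hd0, hdO, i, j, hij⟩ := exists_max98 O b hb0
  let x : Matrix m m O := Matrix.of fun i j => ⟨d⁻¹ * b i j, hdO i j⟩
  have hx : x.map (algebraMap O K) = d⁻¹ • b := by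
    ext k l
    rfl
  have hxns : ¬ ∃ l : IsLocalRing.ResidueField O, x.map (IsLocalRing.residue O) = l • 1 := by
    rintro ⟨l, hl⟩
    have hl0 : l = 0 := by
      have h4 := congrFun (congrFun hl i0) i0
      rw [Matrix.smul_apply, Matrix.one_apply_eq, smul_eq_mul, mul_one, Matrix.map_apply] at h4
      rw [← h4]
      have h5 : x i0 i0 = 0 := by
        apply Subtype.ext
        show d⁻¹ * b i0 i0 = 0
        rw [hbi, mul_zero]
      rw [h5, map_zero]
    have h6 := congrFun (congrFun hl i) j
    have h7 : x i j = 1 := by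
      apply Subtype.ext
      exact hij
    rw [hl0, zero_smul, Matrix.zero_apply, Matrix.map_apply, h7, map_one] at h6
    exact one_ne_zero h6
  have hv : ∃ y ∈ P, y * x.map (IsLocalRing.residue O) - x.map (IsLocalRing.residue O) * y ≠ 0 := by
    by_contra hcon
    push Not at hcon
    apply hxns
    have hcomm : ∀ s : Matrix m m (IsLocalRing.ResidueField O), sᵀ * J + J * s = 0 →
        s * x.map (IsLocalRing.residue O) = x.map (IsLocalRing.residue O) * s := by
      intro s hsJ
      have hsp := hspan s hsJ
      clear hsJ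
      induction hsp using Submodule.span_induction with
      | mem y hy => exact sub_eq_zero.1 (hcon y hy)
      | zero => rw [Matrix.zero_mul, Matrix.mul_zero]
      | add u v _ _ h3 h4 => rw [Matrix.add_mul, Matrix.mul_add, h3, h4]
      | smul c u _ h3 => rw [Matrix.smul_mul, Matrix.mul_smul, h3]
    rcases hs with hs | hs
    · exact scalar_of_so98 (by omega) hJ (ε := 1) (mul_one 1) (by rw [one_smul, hs]) _ hcomm
    · exact scalar_of_so98 (by omega) hJ (ε := -1) (by ring) (by rw [neg_one_smul, hs]) _ hcomm
  obtain ⟨E, hE, hne⟩ := hv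
  obtain ⟨g, h, hgh, hg, hst⟩ := hL E hE
  have hh := hinv E hE g h hgh hg
  have hEE := (hP E hE).2
  refine ⟨(g * x * h - x).map (IsLocalRing.residue O), ⟨g * x * h - x, ?_, rfl⟩, ?_⟩
  · rw [Matrix.map_sub _ (fun _ _ => map_sub _ _ _), Matrix.map_mul, Matrix.map_mul, hx]
    have h8 : g.map (algebraMap O K) * (d⁻¹ • b) * h.map (algebraMap O K) - d⁻¹ • b
        = d⁻¹ • (g.map (algebraMap O K) * c * h.map (algebraMap O K) - c) := by
      have h9 : g.map (algebraMap O K) * h.map (algebraMap O K) = 1 := by
        rw [← Matrix.map_mul, hgh]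
        exact Matrix.map_one _ (map_zero _) (map_one _)
      rw [Matrix.mul_smul, Matrix.smul_mul, ← smul_sub, hb]
      congr 1
      rw [Matrix.mul_sub, Matrix.sub_mul, Matrix.mul_smul, Matrix.smul_mul, Matrix.mul_one, h9]
      abel
    rw [h8]
    exact L.smul_mem _ (L.sub_mem (hst c hc).1 hc)
  · intro l hl
    rw [Matrix.map_sub _ (fun _ _ => map_sub _ _ _), Matrix.map_mul, Matrix.map_mul, hg, hh] at hl
    set X := x.map (IsLocalRing.residue O) with hX
    -- `[E, X] = l (1 + E)`
    have h10 : E * X - X * E = l • (1 + E) := by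
      have h11 := congrArg (fun M => M * (1 + E)) hl
      have h12 : ((1 + E) * X * (1 - E) - X) * (1 + E) = (E * X - X * E) - (1 + E) * X * (E * E) := by noncomm_ring
      have h13 : (l • (1 : Matrix m m (IsLocalRing.ResidueField O))) * (1 + E) = l • (1 + E) := by
        rw [Matrix.smul_mul, Matrix.one_mul]
      rw [h12, h13, hEE, Matrix.mul_zero, sub_zero] at h11
      exact h11
    have h14 : E * (E * X - X * E) = -(E * X * E) := by
      rw [Matrix.mul_sub, ← Matrix.mul_assoc, hEE, Matrix.zero_mul, zero_sub, ← Matrix.mul_assoc]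
    have h15 : (E * X - X * E) * E = E * X * E := by
      rw [Matrix.sub_mul, Matrix.mul_assoc X, hEE, Matrix.mul_zero, sub_zero]
    have h16 : E * (l • (1 + E)) = l • E := by
      rw [Matrix.mul_smul, Matrix.mul_add, Matrix.mul_one, hEE, add_zero]
    have h17 : (l • (1 + E)) * E = l • E := by
      rw [Matrix.smul_mul, Matrix.add_mul, Matrix.one_mul, hEE, add_zero]
    rw [h10, h16] at h14
    rw [h10, h17] at h15
    have h18 : (2 * l) • E = 0 := by
      rw [two_mul, add_smul]
      nth_rewrite 1 [h15]
      rw [h14]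
      abel
    rcases smul_eq_zero.1 h18 with h19 | h19
    · rcases mul_eq_zero.1 h19 with h20 | h20
      · exact h2 h20
      · apply hne
        rw [h10, h20, zero_smul]
    · apply hne
      rw [h19, Matrix.zero_mul, Matrix.mul_zero, sub_zero]

end lift

end Pool.Agent.Helper79.KN
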