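import Pool.Agent.Helper98.KN.N3a
import Pool.Agent.Helper68.KN.N2

/-!
KN block N3: Lie algebras of matrices that are stable under conjugation by integral lifts of unipotent isometries.
-/


set_option autoImplicit false

open Matrix H77MT

namespace Pool.Agent.Helper79.KN

open Pool.Agent.Helper79.KM (redL)

variable {K : Type*} [Field K] {m : Type*} [Fintype m] [DecidableEq m]

/-- N3 -/
theorem lift_gen (O : ValuationSubring K) (h2 : (2 : IsLocalRing.ResidueField O) ≠ 0) (hm : 4 < Fintype.card m)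
    {J : Matrix m m (IsLocalRing.ResidueField O)} (hJ : IsUnit J.det) (hs : Jᵀ = J ∨ Jᵀ = -J)
    (P : Set (Matrix m m (IsLocalRing.ResidueField O))) (hP : ∀ y ∈ P, yᵀ * J + J * y = 0 ∧ y * y = 0)
    (hspan : ∀ s : Matrix m m (IsLocalRing.ResidueField O), sᵀ * J + J * s = 0 →
      s ∈ Submodule.span (IsLocalRing.ResidueField O) P)
    (L : Submodule K (Matrix m m K)) (hbr : ∀ x ∈ L, ∀ y ∈ L, x * y - y * x ∈ L)
    (hL : ∀ y ∈ P, ∃ g h : Matrix m m O, g * h = 1 ∧ g.map (IsLocalRing.residue O) = 1 + y ∧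
      ∀ a ∈ L, g.map (algebraMap O K) * a * h.map (algebraMap O K) ∈ L ∧
        h.map (algebraMap O K) * a * g.map (algebraMap O K) ∈ L)
    (hns : ∃ c ∈ L, ∀ l : K, c ≠ l • (1 : Matrix m m K)) :
    (∀ x : Matrix m m K, x.trace = 0 → x ∈ L) ∨
      (∀ s : Matrix m m (IsLocalRing.ResidueField O), sᵀ * J + J * s = 0 → s ∈ redL O L) ∧
        ∀ c ∈ redL O L, ∃ l : IsLocalRing.ResidueField O, cᵀ * J + J * c = l • J := by
  obtain ⟨h1, h3, h4⟩ := lift_gen98 O h2 hm hJ hs P hP hspan L hbr hL hns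
  rcases so_max h2 hm hJ hs (fun s hs' => Submodule.span_mono (fun y hy => hP y hy) (hspan s hs')) (redL O L)
    h1 h3 h4 with h | h
  · exact Or.inl (full_of_red98 O h2 L hbr h)
  · exact Or.inr h

end Pool.Agent.Helper79.KN
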